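import Mathlib

set_option autoImplicit false

namespace Pool.Agent.Lib.MP_130e73_co

open Polynomial

/-- `S` is a dominating set of `G`: every vertex outside `S` has a neighbour in `S`. -/
def IsDominating {V : Type*} (G : SimpleGraph V) (S : Finset V) : Prop :=
  ∀ v, v ∉ S → ∃ w ∈ S, G.Adj v w

/-- `d(G,i)`: the number of dominating sets of `G` with exactly `i` elements. -/
noncomputable def domCount {V : Type*} (G : SimpleGraph V) (i : ℕ) : ℕ :=
  Nat.card {S : Finset V // S.card = i ∧ IsDominating G S}

/-- The domination polynomial `D(G,x)`, the sum of `d(G,i) x^i` over `1 ≤ i ≤ |V|`. -/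
noncomputable def domPoly {V : Type*} [Fintype V] (G : SimpleGraph V) : ℝ[X] :=
  ∑ i ∈ Finset.Icc 1 (Fintype.card V), C (domCount G i : ℝ) * X ^ i

/-- The set of real numbers that are roots of the domination polynomial of
the path with `n` vertices for some `n ≥ 4`. -/
def RP : Set ℝ := {r | ∃ n : ℕ, 4 ≤ n ∧ (domPoly (SimpleGraph.pathGraph n)).IsRoot r}

/-- The set of real numbers that are roots of the domination polynomial of
the cycle with `n` vertices for some `n ≥ 4`. -/
def RC : Set ℝ := {r | ∃ n : ℕ, 4 ≤ n ∧ (domPoly (SimpleGraph.cycleGraph n)).IsRoot r}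

end Pool.Agent.Lib.MP_130e73_co
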