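import Mathlib
import Pool.Agent.Lib.MP_130e73_co.Defs

set_option autoImplicit false

namespace Pool.Agent.Lib.MP_130e73_co

open Polynomial Finset Classical

/-- The value of the domination polynomial as a sum over dominating sets. -/
lemma eval_domPoly {V : Type*} [Fintype V] [Nonempty V] (G : SimpleGraph V) (x : ℝ) :
    (domPoly G).eval x = ∑ S : Finset V, if IsDominating G S then x ^ S.card else 0 := by
  unfold domPoly domCount
  rw [Polynomial.eval_finsetSum]
  simp only [eval_mul, eval_C, eval_pow, eval_X]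
  have h1 : ∀ i : ℕ, (Nat.card {S : Finset V // S.card = i ∧ IsDominating G S} : ℝ) * x ^ i
      = ∑ S : Finset V, if (S.card = i ∧ IsDominating G S) then x ^ S.card else 0 := by
    intro i
    rw [← Finset.sum_filter]
    rw [Finset.sum_congr rfl (g := fun _ => x ^ i)]
    · rw [Finset.sum_const, nsmul_eq_mul, Nat.card_eq_fintype_card, Fintype.card_subtype]
    · intro S hS
      rw [(Finset.mem_filter.mp hS).2.1]
  simp only [h1]
  rw [Finset.sum_comm]
  refine Finset.sum_congr rfl fun S _ => ?_
  by_cases hS : IsDominating G S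
  · simp only [hS, and_true, if_true]
    rw [Finset.sum_ite_eq]
    have hcard : S.card ∈ Finset.Icc 1 (Fintype.card V) := by
      rw [Finset.mem_Icc]
      refine ⟨?_, Finset.card_le_univ S⟩
      rw [Nat.one_le_iff_ne_zero, Ne, Finset.card_eq_zero]
      rintro rfl
      obtain ⟨v⟩ := ‹Nonempty V›
      obtain ⟨w, hw, _⟩ := hS v (by simp)
      simp at hw
    rw [if_pos hcard]
  · simp [hS]

/-- Transfer a sum over subsets of `Fin n` to one over subsets of `range n`. -/
lemma sum_fin_eq (n : ℕ) (P : Finset (Fin n) → Prop) (Q : Finset ℕ → Prop) (x : ℝ)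
    (h : ∀ S : Finset (Fin n), P S ↔ Q (S.map Fin.valEmbedding)) :
    (∑ S : Finset (Fin n), if P S then x ^ S.card else 0)
      = ∑ S ∈ (range n).powerset, if Q S then x ^ S.card else 0 := by
  refine Finset.sum_bij (fun S _ => S.map Fin.valEmbedding) ?_ ?_ ?_ ?_
  · intro S _
    rw [mem_powerset]
    intro i hi
    rw [Finset.mem_map] at hi
    obtain ⟨a, _, rfl⟩ := hi
    simp
  · intro S _ T _ hST
    exact Finset.map_injective _ hST
  · intro T hT
    rw [mem_powerset] at hT
    refine ⟨univ.filter (fun i : Fin n => (i : ℕ) ∈ T), mem_univ _, ?_⟩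
    ext i
    simp only [Finset.mem_map, mem_filter, mem_univ, true_and, Fin.valEmbedding_apply]
    constructor
    · rintro ⟨a, ha, rfl⟩; exact ha
    · intro hi
      exact ⟨⟨i, mem_range.mp (hT hi)⟩, hi, rfl⟩
  · intro S _
    rw [Finset.card_map]
    by_cases hS : P S
    · rw [if_pos hS, if_pos ((h S).mp hS)]
    · rw [if_neg hS, if_neg (fun h' => hS ((h S).mpr h'))]

/-- No three consecutive vertices of `0, …, n-1` are all outside `S`. -/
def Lin (n : ℕ) (S : Finset ℕ) : Prop := ∀ i, i + 2 < n → (i ∈ S ∨ i + 1 ∈ S ∨ i + 2 ∈ S)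

/-- State sums. -/
noncomputable def U (x : ℝ) (I : Finset ℕ → Prop) (n : ℕ) (c d : Prop) : ℝ :=
  ∑ S ∈ (range n).powerset,
    if (I S ∧ Lin n S ∧ (n - 2 ∈ S ↔ c) ∧ (n - 1 ∈ S ↔ d)) then x ^ S.card else 0

lemma Lin_succ_of (n : ℕ) (hn : 2 ≤ n) (S : Finset ℕ) (hS : n ∉ S) :
    Lin (n + 1) S ↔ (Lin n S ∧ (n - 2 ∈ S ∨ n - 1 ∈ S)) := by
  constructor
  · intro h
    refine ⟨fun i hi => h i (by omega), ?_⟩
    have := h (n - 2) (by omega)
    rw [show n - 2 + 1 = n - 1 by omega, show n - 2 + 2 = n by omega] at this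
    tauto
  · rintro ⟨h1, h2⟩ i hi
    rcases Nat.lt_or_ge (i + 2) n with h | h
    · exact h1 i h
    · have : i = n - 2 := by omega
      subst this
      rw [show n - 2 + 1 = n - 1 by omega]
      tauto

lemma Lin_succ_insert (n : ℕ) (S : Finset ℕ) :
    Lin (n + 1) (insert n S) ↔ Lin n S := by
  constructor
  · intro h i hi
    have := h i (by omega)
    simp only [mem_insert] at this
    rcases this with (h | h) | (h | h) | (h | h)
    · omega
    · exact Or.inl h
    · omega
    · exact Or.inr (Or.inl h)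
    · omega
    · exact Or.inr (Or.inr h)
  · intro h i hi
    simp only [mem_insert]
    rcases Nat.lt_or_ge (i + 2) n with h' | h'
    · rcases h i h' with h | h | h <;> tauto
    · have : i + 2 = n := by omega
      tauto

section rec
variable (x : ℝ) (I : Finset ℕ → Prop)
  (hI : ∀ (S : Finset ℕ) (n : ℕ), 2 ≤ n → (I (insert n S) ↔ I S))
include hI

lemma U_split (n : ℕ) (hn : 2 ≤ n) (c d : Prop) :
    U x I (n + 1) c d
      = (∑ S ∈ (range n).powerset,
          if (I S ∧ (Lin n S ∧ (n - 2 ∈ S ∨ n - 1 ∈ S)) ∧ (n - 1 ∈ S ↔ c) ∧ (False ↔ d))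
            then x ^ S.card else 0)
        + ∑ S ∈ (range n).powerset,
          if (I S ∧ Lin n S ∧ (n - 1 ∈ S ↔ c) ∧ (True ↔ d)) then x ^ (S.card + 1) else 0 := by
  unfold U
  rw [Finset.range_add_one, Finset.sum_powerset_insert (by simp)]
  congr 1
  · refine Finset.sum_congr rfl fun S hS => ?_
    have hn' : n ∉ S := fun h => by
      have := mem_range.mp ((mem_powerset.mp hS) h)
      omega
    rw [show n + 1 - 2 = n - 1 by omega, show n + 1 - 1 = n by omega]
    simp only [Lin_succ_of n hn S hn', hn']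
  · refine Finset.sum_congr rfl fun S hS => ?_
    have hn' : n ∉ S := fun h => by
      have := mem_range.mp ((mem_powerset.mp hS) h)
      omega
    rw [show n + 1 - 2 = n - 1 by omega, show n + 1 - 1 = n by omega]
    have h1 : n - 1 ≠ n := by omega
    simp only [hI S n hn, Lin_succ_insert, mem_insert, h1, false_or, true_or, 
      Finset.card_insert_of_notMem hn']

lemma U_TT (n : ℕ) (hn : 2 ≤ n) :
    U x I (n + 1) True True = x * (U x I n True True + U x I n False True) := by
  rw [U_split x I hI n hn]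
  unfold U
  rw [← Finset.sum_add_distrib, ← Finset.sum_add_distrib, Finset.mul_sum]
  refine Finset.sum_congr rfl fun S _ => ?_
  by_cases h1 : I S <;> by_cases h2 : Lin n S <;> by_cases h3 : n - 1 ∈ S <;>
    by_cases h4 : n - 2 ∈ S <;> simp [h1, h2, h3, h4, pow_succ, mul_comm]

lemma U_FT (n : ℕ) (hn : 2 ≤ n) :
    U x I (n + 1) False True = x * (U x I n True False + U x I n False False) := by
  rw [U_split x I hI n hn]
  unfold U
  rw [← Finset.sum_add_distrib, ← Finset.sum_add_distrib, Finset.mul_sum]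
  refine Finset.sum_congr rfl fun S _ => ?_
  by_cases h1 : I S <;> by_cases h2 : Lin n S <;> by_cases h3 : n - 1 ∈ S <;>
    by_cases h4 : n - 2 ∈ S <;> simp [h1, h2, h3, h4, pow_succ, mul_comm]

lemma U_TF (n : ℕ) (hn : 2 ≤ n) :
    U x I (n + 1) True False = U x I n True True + U x I n False True := by
  rw [U_split x I hI n hn]
  unfold U
  rw [← Finset.sum_add_distrib, ← Finset.sum_add_distrib]
  refine Finset.sum_congr rfl fun S _ => ?_
  by_cases h1 : I S <;> by_cases h2 : Lin n S <;> by_cases h3 : n - 1 ∈ S <;>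
    by_cases h4 : n - 2 ∈ S <;> simp [h1, h2, h3, h4]

lemma U_FF (n : ℕ) (hn : 2 ≤ n) :
    U x I (n + 1) False False = U x I n True False := by
  rw [U_split x I hI n hn]
  unfold U
  rw [← Finset.sum_add_distrib]
  refine Finset.sum_congr rfl fun S _ => ?_
  by_cases h1 : I S <;> by_cases h2 : Lin n S <;> by_cases h3 : n - 1 ∈ S <;>
    by_cases h4 : n - 2 ∈ S <;> simp [h1, h2, h3, h4]

end rec

end Pool.Agent.Lib.MP_130e73_co
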