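import Mathlib
import Pool.Agent.Lib.MP_130e73_co.Comb

set_option autoImplicit false

namespace Pool.Agent.Lib.MP_130e73_co

open Polynomial Finset Classical

/-- The solution of `u (n+3) = x (u (n+2) + u (n+1) + u n)` with given initial values. -/
noncomputable def rec3 (x a b c : ℝ) : ℕ → ℝ
  | 0 => a
  | 1 => b
  | 2 => c
  | n + 3 => x * (rec3 x a b c (n + 2) + rec3 x a b c (n + 1) + rec3 x a b c n)

section rec
variable (x : ℝ) (I : Finset ℕ → Prop)
  (hI : ∀ (S : Finset ℕ) (n : ℕ), 2 ≤ n → (I (insert n S) ↔ I S))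
include hI

/-- Every linear combination of the four state sums satisfies the three-term recursion. -/
lemma U_rec (p q r s : ℝ) (n : ℕ) (hn : 2 ≤ n) :
    (p * U x I (n + 4) True True + q * U x I (n + 4) True False
      + r * U x I (n + 4) False True + s * U x I (n + 4) False False)
    = x * ((p * U x I (n + 3) True True + q * U x I (n + 3) True False
      + r * U x I (n + 3) False True + s * U x I (n + 3) False False)
      + (p * U x I (n + 2) True True + q * U x I (n + 2) True False
      + r * U x I (n + 2) False True + s * U x I (n + 2) False False)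
      + (p * U x I (n + 1) True True + q * U x I (n + 1) True False
      + r * U x I (n + 1) False True + s * U x I (n + 1) False False)) := by
  have e4 : n + 4 = (n + 3) + 1 := rfl
  have e3 : n + 3 = (n + 2) + 1 := rfl
  have e2 : n + 2 = (n + 1) + 1 := rfl
  rw [e4, U_TT x I hI (n + 3) (by omega), U_TF x I hI (n + 3) (by omega),
    U_FT x I hI (n + 3) (by omega), U_FF x I hI (n + 3) (by omega)]
  rw [e3, U_TT x I hI (n + 2) (by omega), U_TF x I hI (n + 2) (by omega),
    U_FT x I hI (n + 2) (by omega), U_FF x I hI (n + 2) (by omega)]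
  rw [e2, U_TT x I hI (n + 1) (by omega), U_TF x I hI (n + 1) (by omega),
    U_FT x I hI (n + 1) (by omega), U_FF x I hI (n + 1) (by omega)]
  rw [U_TT x I hI n (by omega), U_TF x I hI n (by omega),
    U_FT x I hI n (by omega), U_FF x I hI n (by omega)]
  ring

end rec

lemma powerset_range_two : (range 2).powerset = {∅, {0}, {1}, {0, 1}} := by decide

lemma Lin_two (S : Finset ℕ) : Lin 2 S := fun i hi => by omega

lemma U_two (x : ℝ) (I : Finset ℕ → Prop) (c d : Prop) :
    U x I 2 c d = (if (I ∅ ∧ ¬ c ∧ ¬ d) then 1 else 0) + (if (I {0} ∧ c ∧ ¬ d) then x else 0)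
      + (if (I {1} ∧ ¬ c ∧ d) then x else 0) + (if (I {0, 1} ∧ c ∧ d) then x ^ 2 else 0) := by
  unfold U
  rw [powerset_range_two]
  rw [Finset.sum_insert (by decide), Finset.sum_insert (by decide), Finset.sum_insert (by decide),
    Finset.sum_singleton]
  simp only [Lin_two, true_and]
  have h1 : ∀ a b : Prop, (a ↔ b) = (b ↔ a) := fun a b => by rw [iff_comm]
  by_cases hc : c <;> by_cases hd : d <;> simp [hc, hd]

/-! The path. -/

def IP (T : Finset ℕ) : Prop := 0 ∈ T ∨ 1 ∈ T

lemma IP_inv (S : Finset ℕ) (n : ℕ) (hn : 2 ≤ n) : IP (insert n S) ↔ IP S := by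
  unfold IP
  simp only [mem_insert]
  have h0 : (0 : ℕ) ≠ n := by omega
  have h1 : (1 : ℕ) ≠ n := by omega
  simp [h0, h1]

lemma path_dom_iff (n : ℕ) (hn : 2 ≤ n) (S : Finset (Fin n)) :
    IsDominating (SimpleGraph.pathGraph n) S ↔
      (IP (S.map Fin.valEmbedding) ∧ Lin n (S.map Fin.valEmbedding)
        ∧ (n - 2 ∈ S.map Fin.valEmbedding ∨ n - 1 ∈ S.map Fin.valEmbedding)) := by
  have hmem : ∀ i : ℕ, i ∈ S.map Fin.valEmbedding ↔ ∃ h : i < n, (⟨i, h⟩ : Fin n) ∈ S := by
    intro i
    simp only [Finset.mem_map, Fin.valEmbedding_apply]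
    constructor
    · rintro ⟨a, ha, rfl⟩; exact ⟨a.2, ha⟩
    · rintro ⟨h, ha⟩; exact ⟨⟨i, h⟩, ha, rfl⟩
  unfold IsDominating IP Lin
  simp only [hmem, SimpleGraph.pathGraph_adj]
  constructor
  · intro h
    have key : ∀ i (hi : i < n), (∃ h : i < n, (⟨i, h⟩ : Fin n) ∈ S)
        ∨ (∃ h : i + 1 < n, (⟨i + 1, h⟩ : Fin n) ∈ S)
        ∨ (0 < i ∧ ∃ h : i - 1 < n, (⟨i - 1, h⟩ : Fin n) ∈ S) := by
      intro i hi
      by_cases hS : (⟨i, hi⟩ : Fin n) ∈ S
      · exact Or.inl ⟨hi, hS⟩
      · obtain ⟨w, hw, hadj⟩ := h ⟨i, hi⟩ hS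
        rcases hadj with h1 | h1
        · right; left
          simp only at h1
          refine ⟨by omega, ?_⟩
          have : w = ⟨i + 1, by omega⟩ := Fin.ext h1.symm
          rwa [this] at hw
        · right; right
          simp only at h1
          refine ⟨by omega, by omega, ?_⟩
          have : w = ⟨i - 1, by omega⟩ := Fin.ext (by simp only; omega)
          rwa [this] at hw
    refine ⟨?_, ?_, ?_⟩
    · rcases key 0 (by omega) with h0 | h0 | h0
      · exact Or.inl h0
      · exact Or.inr h0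
      · omega
    · intro i hi
      rcases key (i + 1) (by omega) with h0 | h0 | h0
      · exact Or.inr (Or.inl h0)
      · exact Or.inr (Or.inr h0)
      · exact Or.inl h0.2
    · rcases key (n - 1) (by omega) with h0 | h0 | h0
      · exact Or.inr h0
      · obtain ⟨h1, _⟩ := h0; omega
      · left; exact h0.2
  · rintro ⟨h0, hL, hE⟩ v hv
    rcases Nat.eq_zero_or_pos v.1 with hv0 | hv0
    · rcases h0 with ⟨h1, h2⟩ | ⟨h1, h2⟩
      · exfalso
        apply hv
        have : v = ⟨0, h1⟩ := Fin.ext hv0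
        rwa [this]
      · exact ⟨⟨1, h1⟩, h2, Or.inl (by simp [hv0])⟩
    · rcases Nat.lt_or_ge (v.1 + 1) n with hlt | hge
      · rcases hL (v.1 - 1) (by omega) with ⟨h1, h2⟩ | ⟨h1, h2⟩ | ⟨h1, h2⟩
        · exact ⟨_, h2, Or.inr (by simp only; omega)⟩
        · exfalso
          apply hv
          have : v = ⟨v.1 - 1 + 1, h1⟩ := Fin.ext (by simp only; omega)
          rw [this]; exact h2
        · exact ⟨_, h2, Or.inl (by simp only; omega)⟩
      · have hv1 : v.1 = n - 1 := by have := v.2; omega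
        rcases hE with ⟨h1, h2⟩ | ⟨h1, h2⟩
        · exact ⟨_, h2, Or.inr (by simp only; omega)⟩
        · exfalso
          apply hv
          have : v = ⟨n - 1, h1⟩ := Fin.ext hv1
          rwa [this]

lemma eval_path_eq_U (n : ℕ) (hn : 2 ≤ n) (x : ℝ) :
    (domPoly (SimpleGraph.pathGraph n)).eval x
      = 1 * U x IP n True True + 1 * U x IP n True False
      + 1 * U x IP n False True + 0 * U x IP n False False := by
  have : Nonempty (Fin n) := ⟨⟨0, by omega⟩⟩
  rw [eval_domPoly, sum_fin_eq n _ (fun T => IP T ∧ Lin n T ∧ (n - 2 ∈ T ∨ n - 1 ∈ T)) x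
    (path_dom_iff n hn)]
  unfold U
  rw [one_mul, one_mul, one_mul, zero_mul, add_zero, ← Finset.sum_add_distrib,
    ← Finset.sum_add_distrib]
  refine Finset.sum_congr rfl fun S _ => ?_
  by_cases h1 : IP S <;> by_cases h2 : Lin n S <;> by_cases h3 : n - 1 ∈ S <;>
    by_cases h4 : n - 2 ∈ S <;> simp [h1, h2, h3, h4]

lemma IP_two (x : ℝ) : U x IP 2 True True = x ^ 2 ∧ U x IP 2 True False = x ∧
    U x IP 2 False True = x ∧ U x IP 2 False False = 0 := by
  refine ⟨?_, ?_, ?_, ?_⟩ <;> rw [U_two] <;> simp [IP]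

/-- `D(P_n, x)` satisfies the three-term recursion. -/
lemma eval_path (x : ℝ) (n : ℕ) : 2 ≤ n →
    (domPoly (SimpleGraph.pathGraph n)).eval x = rec3 x 1 x (x ^ 2 + 2 * x) n := by
  induction n using Nat.strong_induction_on with
  | _ n ih =>
    intro hn
    obtain ⟨b1, b2, b3, b4⟩ := IP_two x
    have c1 := U_TT x IP IP_inv 2 le_rfl
    have c2 := U_TF x IP IP_inv 2 le_rfl
    have c3 := U_FT x IP IP_inv 2 le_rfl
    have c4 := U_FF x IP IP_inv 2 le_rfl
    norm_num only [] at c1 c2 c3 c4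
    have d1 := U_TT x IP IP_inv 3 (by omega)
    have d2 := U_TF x IP IP_inv 3 (by omega)
    have d3 := U_FT x IP IP_inv 3 (by omega)
    have d4 := U_FF x IP IP_inv 3 (by omega)
    norm_num only [] at d1 d2 d3 d4
    have e1 := U_TT x IP IP_inv 4 (by omega)
    have e2 := U_TF x IP IP_inv 4 (by omega)
    have e3 := U_FT x IP IP_inv 4 (by omega)
    norm_num only [] at e1 e2 e3
    rcases Nat.lt_or_ge n 6 with h | h
    · interval_cases n
      · rw [eval_path_eq_U 2 le_rfl, b1, b2, b3, b4]; simp only [rec3]; ring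
      · rw [eval_path_eq_U 3 (by omega), c1, c2, c3, c4, b1, b2, b3, b4]
        simp only [rec3]; ring
      · rw [eval_path_eq_U 4 (by omega), d1, d2, d3, c1, c2, c3, c4, b1, b2, b3, b4]
        simp only [rec3]; ring
      · rw [eval_path_eq_U 5 (by omega), e1, e2, e3, d1, d2, d3, d4, c1, c2, c3, c4,
          b1, b2, b3, b4]
        simp only [rec3]; ring
    · obtain ⟨m, rfl⟩ : ∃ m, n = m + 4 := ⟨n - 4, by omega⟩
      rw [eval_path_eq_U (m + 4) (by omega), U_rec x IP IP_inv _ _ _ _ m (by omega),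
        ← eval_path_eq_U (m + 3) (by omega), ← eval_path_eq_U (m + 2) (by omega),
        ← eval_path_eq_U (m + 1) (by omega), ih (m + 3) (by omega) (by omega),
        ih (m + 2) (by omega) (by omega), ih (m + 1) (by omega) (by omega)]
      rfl

end Pool.Agent.Lib.MP_130e73_co
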