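import Mathlib
import Pool.Agent.Lib.MP_130e73_co.Recur

set_option autoImplicit false

namespace Pool.Agent.Lib.MP_130e73_co

open Polynomial Finset Classical

lemma cycle_adj_iff (n : ℕ) (hn : 3 ≤ n) (u v : Fin n) :
    (SimpleGraph.cycleGraph n).Adj u v ↔
      (u.val + 1 = v.val ∨ v.val + 1 = u.val ∨ (u.val = 0 ∧ v.val = n - 1)
        ∨ (v.val = 0 ∧ u.val = n - 1)) := by
  have hsub : ∀ a b : Fin n, (a - b).val = 1 ↔ (a.val = b.val + 1 ∨ (a.val = 0 ∧ b.val = n - 1)) := by
    intro a b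
    rw [Fin.val_sub]
    have ha := a.2
    have hb := b.2
    rcases Nat.lt_or_ge a.val b.val with h | h
    · rw [Nat.mod_eq_of_lt (by omega)]; omega
    · have : n - b.val + a.val = n + (a.val - b.val) := by omega
      rw [this, Nat.add_mod_left, Nat.mod_eq_of_lt (by omega)]; omega
  rw [SimpleGraph.cycleGraph_adj', hsub, hsub]
  omega

lemma cycle_dom_iff (n : ℕ) (hn : 3 ≤ n) (S : Finset (Fin n)) :
    IsDominating (SimpleGraph.cycleGraph n) S ↔
      (Lin n (S.map Fin.valEmbedding)
        ∧ (n - 2 ∈ S.map Fin.valEmbedding ∨ n - 1 ∈ S.map Fin.valEmbedding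
            ∨ 0 ∈ S.map Fin.valEmbedding)
        ∧ (n - 1 ∈ S.map Fin.valEmbedding ∨ 0 ∈ S.map Fin.valEmbedding
            ∨ 1 ∈ S.map Fin.valEmbedding)) := by
  have hmem : ∀ i : ℕ, i ∈ S.map Fin.valEmbedding ↔ ∃ h : i < n, (⟨i, h⟩ : Fin n) ∈ S := by
    intro i
    simp only [Finset.mem_map, Fin.valEmbedding_apply]
    constructor
    · rintro ⟨a, ha, rfl⟩; exact ⟨a.2, ha⟩
    · rintro ⟨h, ha⟩; exact ⟨⟨i, h⟩, ha, rfl⟩
  unfold IsDominating Lin
  simp only [hmem, cycle_adj_iff n hn]
  constructor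
  · intro h
    have key : ∀ i (hi : i < n), (∃ h : i < n, (⟨i, h⟩ : Fin n) ∈ S)
        ∨ (∃ h : i + 1 < n, (⟨i + 1, h⟩ : Fin n) ∈ S)
        ∨ (0 < i ∧ ∃ h : i - 1 < n, (⟨i - 1, h⟩ : Fin n) ∈ S)
        ∨ (i = 0 ∧ ∃ h : n - 1 < n, (⟨n - 1, h⟩ : Fin n) ∈ S)
        ∨ (i = n - 1 ∧ ∃ h : 0 < n, (⟨0, h⟩ : Fin n) ∈ S) := by
      intro i hi
      by_cases hS : (⟨i, hi⟩ : Fin n) ∈ S
      · exact Or.inl ⟨hi, hS⟩
      · obtain ⟨w, hw, hadj⟩ := h ⟨i, hi⟩ hS
        rcases hadj with h1 | h1 | h1 | h1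
        · right; left
          simp only at h1
          refine ⟨by omega, ?_⟩
          have : w = ⟨i + 1, by omega⟩ := Fin.ext h1.symm
          rwa [this] at hw
        · right; right; left
          simp only at h1
          refine ⟨by omega, by omega, ?_⟩
          have : w = ⟨i - 1, by omega⟩ := Fin.ext (by simp only; omega)
          rwa [this] at hw
        · right; right; right; left
          simp only at h1
          refine ⟨h1.1, by omega, ?_⟩
          have : w = ⟨n - 1, by omega⟩ := Fin.ext h1.2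
          rwa [this] at hw
        · right; right; right; right
          simp only at h1
          refine ⟨h1.2, by omega, ?_⟩
          have : w = ⟨0, by omega⟩ := Fin.ext h1.1
          rwa [this] at hw
    refine ⟨?_, ?_, ?_⟩
    · intro i hi
      rcases key (i + 1) (by omega) with h0 | h0 | h0 | h0 | h0
      · exact Or.inr (Or.inl h0)
      · exact Or.inr (Or.inr h0)
      · exact Or.inl h0.2
      · omega
      · omega
    · rcases key (n - 1) (by omega) with h0 | h0 | h0 | h0 | h0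
      · exact Or.inr (Or.inl h0)
      · obtain ⟨h1, _⟩ := h0; omega
      · left; exact h0.2
      · omega
      · exact Or.inr (Or.inr h0.2)
    · rcases key 0 (by omega) with h0 | h0 | h0 | h0 | h0
      · exact Or.inr (Or.inl h0)
      · exact Or.inr (Or.inr h0)
      · omega
      · exact Or.inl h0.2
      · omega
  · rintro ⟨hL, hE, h0⟩ v hv
    rcases Nat.eq_zero_or_pos v.1 with hv0 | hv0
    · rcases h0 with ⟨h1, h2⟩ | ⟨h1, h2⟩ | ⟨h1, h2⟩
      · exact ⟨⟨n - 1, h1⟩, h2, Or.inr (Or.inr (Or.inl ⟨hv0, rfl⟩))⟩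
      · exfalso
        apply hv
        have : v = ⟨0, h1⟩ := Fin.ext hv0
        rwa [this]
      · exact ⟨⟨1, h1⟩, h2, by simp only; omega⟩
    · rcases Nat.lt_or_ge (v.1 + 1) n with hlt | hge
      · rcases hL (v.1 - 1) (by omega) with ⟨h1, h2⟩ | ⟨h1, h2⟩ | ⟨h1, h2⟩
        · exact ⟨_, h2, by simp only; omega⟩
        · exfalso
          apply hv
          have : v = ⟨v.1 - 1 + 1, h1⟩ := Fin.ext (by simp only; omega)
          rw [this]; exact h2
        · exact ⟨_, h2, by simp only; omega⟩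
      · have hv1 : v.1 = n - 1 := by have := v.2; omega
        rcases hE with ⟨h1, h2⟩ | ⟨h1, h2⟩ | ⟨h1, h2⟩
        · exact ⟨_, h2, by simp only; omega⟩
        · exfalso
          apply hv
          have : v = ⟨n - 1, h1⟩ := Fin.ext hv1
          rwa [this]
        · exact ⟨_, h2, Or.inr (Or.inr (Or.inr ⟨rfl, hv1⟩))⟩

def I0 (T : Finset ℕ) : Prop := 0 ∈ T
def I1 (T : Finset ℕ) : Prop := 0 ∉ T ∧ 1 ∈ T
def I2 (T : Finset ℕ) : Prop := 0 ∉ T ∧ 1 ∉ T

lemma I0_inv (S : Finset ℕ) (n : ℕ) (hn : 2 ≤ n) : I0 (insert n S) ↔ I0 S := by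
  unfold I0
  have h0 : (0 : ℕ) ≠ n := by omega
  simp [h0]

lemma I1_inv (S : Finset ℕ) (n : ℕ) (hn : 2 ≤ n) : I1 (insert n S) ↔ I1 S := by
  unfold I1
  have h0 : (0 : ℕ) ≠ n := by omega
  have h1 : (1 : ℕ) ≠ n := by omega
  simp [h0, h1]

lemma I2_inv (S : Finset ℕ) (n : ℕ) (hn : 2 ≤ n) : I2 (insert n S) ↔ I2 S := by
  unfold I2
  have h0 : (0 : ℕ) ≠ n := by omega
  have h1 : (1 : ℕ) ≠ n := by omega
  simp [h0, h1]

lemma eval_cycle_eq_U (n : ℕ) (hn : 3 ≤ n) (x : ℝ) :
    (domPoly (SimpleGraph.cycleGraph n)).eval x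
      = (1 * U x I0 n True True + 1 * U x I0 n True False
          + 1 * U x I0 n False True + 1 * U x I0 n False False)
        + (1 * U x I1 n True True + 1 * U x I1 n True False
          + 1 * U x I1 n False True + 0 * U x I1 n False False)
        + (1 * U x I2 n True True + 0 * U x I2 n True False
          + 1 * U x I2 n False True + 0 * U x I2 n False False) := by
  have : Nonempty (Fin n) := ⟨⟨0, by omega⟩⟩
  rw [eval_domPoly, sum_fin_eq n _ (fun T => Lin n T ∧ (n - 2 ∈ T ∨ n - 1 ∈ T ∨ 0 ∈ T)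
    ∧ (n - 1 ∈ T ∨ 0 ∈ T ∨ 1 ∈ T)) x (cycle_dom_iff n hn)]
  unfold U I0 I1 I2
  simp only [one_mul, zero_mul, add_zero, ← Finset.sum_add_distrib]
  refine Finset.sum_congr rfl fun S _ => ?_
  by_cases h1 : 0 ∈ S <;> by_cases h2 : Lin n S <;> by_cases h3 : n - 1 ∈ S <;>
    by_cases h4 : n - 2 ∈ S <;> by_cases h5 : 1 ∈ S <;> simp [h1, h2, h3, h4, h5]

/-- `D(C_n, x)` satisfies the three-term recursion. -/
lemma eval_cycle (x : ℝ) (n : ℕ) : 3 ≤ n →
    (domPoly (SimpleGraph.cycleGraph n)).eval x = rec3 x 3 x (x ^ 2 + 2 * x) n := by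
  induction n using Nat.strong_induction_on with
  | _ n ih =>
    intro hn
    rcases Nat.lt_or_ge n 6 with h | h
    · have key : ∀ (I : Finset ℕ → Prop),
          (∀ (S : Finset ℕ) (n : ℕ), 2 ≤ n → (I (insert n S) ↔ I S)) →
          (U x I 3 True True = x * (U x I 2 True True + U x I 2 False True) ∧
           U x I 3 True False = U x I 2 True True + U x I 2 False True ∧
           U x I 3 False True = x * (U x I 2 True False + U x I 2 False False) ∧
           U x I 3 False False = U x I 2 True False ∧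
           U x I 4 True True = x * (U x I 3 True True + U x I 3 False True) ∧
           U x I 4 True False = U x I 3 True True + U x I 3 False True ∧
           U x I 4 False True = x * (U x I 3 True False + U x I 3 False False) ∧
           U x I 4 False False = U x I 3 True False ∧
           U x I 5 True True = x * (U x I 4 True True + U x I 4 False True) ∧
           U x I 5 True False = U x I 4 True True + U x I 4 False True ∧
           U x I 5 False True = x * (U x I 4 True False + U x I 4 False False) ∧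
           U x I 5 False False = U x I 4 True False) := fun I hI =>
        ⟨U_TT x I hI 2 le_rfl, U_TF x I hI 2 le_rfl, U_FT x I hI 2 le_rfl, U_FF x I hI 2 le_rfl,
          U_TT x I hI 3 (by omega), U_TF x I hI 3 (by omega), U_FT x I hI 3 (by omega),
          U_FF x I hI 3 (by omega), U_TT x I hI 4 (by omega), U_TF x I hI 4 (by omega),
          U_FT x I hI 4 (by omega), U_FF x I hI 4 (by omega)⟩
      obtain ⟨a1, a2, a3, a4, a5, a6, a7, a8, a9, a10, a11, a12⟩ := key I0 I0_inv
      obtain ⟨b1, b2, b3, b4, b5, b6, b7, b8, b9, b10, b11, b12⟩ := key I1 I1_inv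
      obtain ⟨c1, c2, c3, c4, c5, c6, c7, c8, c9, c10, c11, c12⟩ := key I2 I2_inv
      have p1 : U x I0 2 True True = x ^ 2 := by rw [U_two]; simp [I0]
      have p2 : U x I0 2 True False = x := by rw [U_two]; simp [I0]
      have p3 : U x I0 2 False True = 0 := by rw [U_two]; simp [I0]
      have p4 : U x I0 2 False False = 0 := by rw [U_two]; simp [I0]
      have q1 : U x I1 2 True True = 0 := by rw [U_two]; simp [I1]
      have q2 : U x I1 2 True False = 0 := by rw [U_two]; simp [I1]
      have q3 : U x I1 2 False True = x := by rw [U_two]; simp [I1]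
      have q4 : U x I1 2 False False = 0 := by rw [U_two]; simp [I1]
      have r1 : U x I2 2 True True = 0 := by rw [U_two]; simp [I2]
      have r2 : U x I2 2 True False = 0 := by rw [U_two]; simp [I2]
      have r3 : U x I2 2 False True = 0 := by rw [U_two]; simp [I2]
      have r4 : U x I2 2 False False = 1 := by rw [U_two]; simp [I2]
      interval_cases n
      · rw [eval_cycle_eq_U 3 le_rfl, a1, a2, a3, a4, b1, b2, b3, c1, c3,
          p1, p2, p3, p4, q1, q2, q3, q4, r1, r2, r3, r4]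
        simp only [rec3]; ring
      · rw [eval_cycle_eq_U 4 (by omega), a5, a6, a7, a8, b5, b6, b7, c5, c7,
          a1, a2, a3, a4, b1, b2, b3, b4, c1, c2, c3, c4,
          p1, p2, p3, p4, q1, q2, q3, q4, r1, r2, r3, r4]
        simp only [rec3]; ring
      · rw [eval_cycle_eq_U 5 (by omega), a9, a10, a11, a12, b9, b10, b11, c9, c11,
          a5, a6, a7, a8, b5, b6, b7, b8, c5, c6, c7, c8,
          a1, a2, a3, a4, b1, b2, b3, b4, c1, c2, c3, c4,
          p1, p2, p3, p4, q1, q2, q3, q4, r1, r2, r3, r4]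
        simp only [rec3]; ring
    · obtain ⟨m, rfl⟩ : ∃ m, n = m + 4 := ⟨n - 4, by omega⟩
      have e3 := eval_cycle_eq_U (m + 3) (by omega) x
      have e2 := eval_cycle_eq_U (m + 2) (by omega) x
      have e1 := eval_cycle_eq_U (m + 1) (by omega) x
      rw [ih (m + 3) (by omega) (by omega)] at e3
      rw [ih (m + 2) (by omega) (by omega)] at e2
      rw [ih (m + 1) (by omega) (by omega)] at e1
      rw [eval_cycle_eq_U (m + 4) (by omega), U_rec x I0 I0_inv _ _ _ _ m (by omega),
        U_rec x I1 I1_inv _ _ _ _ m (by omega), U_rec x I2 I2_inv _ _ _ _ m (by omega)]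
      have : rec3 x 3 x (x ^ 2 + 2 * x) (m + 4) = x * (rec3 x 3 x (x ^ 2 + 2 * x) (m + 3)
        + rec3 x 3 x (x ^ 2 + 2 * x) (m + 2) + rec3 x 3 x (x ^ 2 + 2 * x) (m + 1)) := rfl
      rw [this, e3, e2, e1]
      ring

end Pool.Agent.Lib.MP_130e73_co
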