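import Mathlib
import Pool.Agent.Lib.MP_130e73_co.RecurC

set_option autoImplicit false

namespace Pool.Agent.Lib.MP_130e73_co

open Real

/-- `E(ρ) = ρ² - ρ + 1`. -/
noncomputable def EE (ρ : ℝ) : ℝ := ρ ^ 2 - ρ + 1
/-- `3ρ² - 2ρ + 3`. -/
noncomputable def DD (ρ : ℝ) : ℝ := 3 * ρ ^ 2 - 2 * ρ + 3
/-- The parametrisation `x = -ρ³/(ρ² - ρ + 1)`. -/
noncomputable def xx (ρ : ℝ) : ℝ := -ρ ^ 3 / EE ρ
/-- The argument of the complex characteristic roots. -/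
noncomputable def th (ρ : ℝ) : ℝ := arccos ((1 - ρ) / (2 * √(EE ρ)))
/-- The modulus of the complex characteristic roots. -/
noncomputable def rr (ρ : ℝ) : ℝ := ρ / √(EE ρ)

lemma EE_pos (ρ : ℝ) : 0 < EE ρ := by unfold EE; nlinarith [sq_nonneg (ρ - 1 / 2)]
lemma DD_pos (ρ : ℝ) : 0 < DD ρ := by unfold DD; nlinarith [sq_nonneg (ρ - 1 / 3)]
lemma sqE_pos (ρ : ℝ) : 0 < √(EE ρ) := Real.sqrt_pos.mpr (EE_pos ρ)
lemma sqE_sq (ρ : ℝ) : √(EE ρ) ^ 2 = EE ρ := Real.sq_sqrt (EE_pos ρ).le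
lemma sqD_pos (ρ : ℝ) : 0 < √(DD ρ) := Real.sqrt_pos.mpr (DD_pos ρ)
lemma sqD_sq (ρ : ℝ) : √(DD ρ) ^ 2 = DD ρ := Real.sq_sqrt (DD_pos ρ).le

lemma cos_arg_sq (ρ : ℝ) : 1 - ((1 - ρ) / (2 * √(EE ρ))) ^ 2 = (√(DD ρ) / (2 * √(EE ρ))) ^ 2 := by
  have h := sqE_pos ρ
  rw [div_pow, div_pow, mul_pow, sqE_sq, sqD_sq]
  have h2 := EE_pos ρ
  field_simp
  unfold EE DD
  ring

lemma cos_th (ρ : ℝ) : cos (th ρ) = (1 - ρ) / (2 * √(EE ρ)) := by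
  have h : ((1 - ρ) / (2 * √(EE ρ))) ^ 2 ≤ 1 := by
    have := cos_arg_sq ρ
    nlinarith [sq_nonneg (√(DD ρ) / (2 * √(EE ρ)))]
  have h' := abs_le_one_of_sq_le_one h
  exact Real.cos_arccos (abs_le.mp h').1 (abs_le.mp h').2
where
  abs_le_one_of_sq_le_one {y : ℝ} (h : y ^ 2 ≤ 1) : |y| ≤ 1 := by
    rw [← sq_abs] at h
    nlinarith [abs_nonneg y]

lemma sin_th (ρ : ℝ) : sin (th ρ) = √(DD ρ) / (2 * √(EE ρ)) := by
  unfold th
  rw [Real.sin_arccos, cos_arg_sq]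
  apply Real.sqrt_sq
  have := sqE_pos ρ
  have := sqD_pos ρ
  positivity

lemma continuous_EE : Continuous EE := by unfold EE; fun_prop

lemma continuous_th : Continuous th := by
  unfold th
  refine Real.continuous_arccos.comp ?_
  refine Continuous.div (by fun_prop) ?_ ?_
  · exact continuous_const.mul (Real.continuous_sqrt.comp continuous_EE)
  · intro ρ
    have := sqE_pos ρ
    positivity

lemma continuous_xx : Continuous xx := by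
  unfold xx
  exact Continuous.div (by fun_prop) continuous_EE (fun ρ => (EE_pos ρ).ne')

/-- The second order recursion for `r^n cos (n θ)` and `r^n sin (n θ)`. -/
lemma rr_sq (ρ : ℝ) : rr ρ ^ 2 = ρ ^ 2 / EE ρ := by
  unfold rr; rw [div_pow, sqE_sq]

lemma two_rr_cos (ρ : ℝ) : 2 * rr ρ * cos (th ρ) = ρ * (1 - ρ) / EE ρ := by
  rw [cos_th]; unfold rr
  have h := sqE_pos ρ
  have hs := sqE_sq ρ
  generalize √(EE ρ) = s at h hs ⊢
  rw [← hs]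
  field_simp

lemma two_rr_sin (ρ : ℝ) : 2 * rr ρ * sin (th ρ) = ρ * √(DD ρ) / EE ρ := by
  rw [sin_th]; unfold rr
  have h := sqE_pos ρ
  have hs := sqE_sq ρ
  generalize √(EE ρ) = s at h hs ⊢
  rw [← hs]
  field_simp

/-- The sequence `A (-ρ)^n + r^n (B cos nθ + C sin nθ)`. -/
noncomputable def cf (ρ A B C : ℝ) (n : ℕ) : ℝ :=
  A * (-ρ) ^ n + rr ρ ^ n * (B * cos (n * th ρ) + C * sin (n * th ρ))

lemma trig_rec (ρ B C : ℝ) (n : ℕ) :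
    rr ρ ^ (n + 2) * (B * cos ((n + 2 : ℕ) * th ρ) + C * sin ((n + 2 : ℕ) * th ρ))
    = (ρ * (1 - ρ) / EE ρ) *
        (rr ρ ^ (n + 1) * (B * cos ((n + 1 : ℕ) * th ρ) + C * sin ((n + 1 : ℕ) * th ρ)))
      - (ρ ^ 2 / EE ρ) * (rr ρ ^ n * (B * cos (n * th ρ) + C * sin (n * th ρ))) := by
  rw [← two_rr_cos, ← rr_sq]
  have h1 : ((n + 2 : ℕ) : ℝ) * th ρ = ((n + 1 : ℕ) : ℝ) * th ρ + th ρ := by push_cast; ring
  have h2 : (n : ℝ) * th ρ = ((n + 1 : ℕ) : ℝ) * th ρ - th ρ := by push_cast; ring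
  rw [h1, h2, Real.cos_add, Real.sin_add, Real.cos_sub, Real.sin_sub]
  ring

lemma cf_rec (ρ A B C : ℝ) (n : ℕ) :
    cf ρ A B C (n + 3) = xx ρ * (cf ρ A B C (n + 2) + cf ρ A B C (n + 1) + cf ρ A B C n) := by
  have e1 := trig_rec ρ B C (n + 1)
  have e0 := trig_rec ρ B C n
  unfold cf
  set s3 := rr ρ ^ (n + 3) * (B * cos ((n + 3 : ℕ) * th ρ) + C * sin ((n + 3 : ℕ) * th ρ))
  set s2 := rr ρ ^ (n + 2) * (B * cos ((n + 2 : ℕ) * th ρ) + C * sin ((n + 2 : ℕ) * th ρ))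
  set s1 := rr ρ ^ (n + 1) * (B * cos ((n + 1 : ℕ) * th ρ) + C * sin ((n + 1 : ℕ) * th ρ))
  set s0 := rr ρ ^ n * (B * cos (n * th ρ) + C * sin (n * th ρ))
  have e1' : s3 = (ρ * (1 - ρ) / EE ρ) * s2 - (ρ ^ 2 / EE ρ) * s1 := e1
  have e0' : s2 = (ρ * (1 - ρ) / EE ρ) * s1 - (ρ ^ 2 / EE ρ) * s0 := e0
  rw [e1']
  have hE := EE_pos ρ
  have key : (ρ * (1 - ρ) / EE ρ) * s2 - (ρ ^ 2 / EE ρ) * s1 = xx ρ * (s2 + s1 + s0) := by
    have h1 : xx ρ * s2 = (ρ * (1 - ρ) / EE ρ) * s2 - ρ * s2 := by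
      unfold xx
      field_simp
      unfold EE
      ring
    have h2 : ρ * s2 = ρ * ((ρ * (1 - ρ) / EE ρ) * s1 - (ρ ^ 2 / EE ρ) * s0) := by rw [← e0']
    have h3 : xx ρ * (s2 + s1 + s0) = xx ρ * s2 + xx ρ * s1 + xx ρ * s0 := by ring
    rw [h3, h1, h2]
    unfold xx
    field_simp
    ring
  rw [key]
  have hpow : A * (-ρ) ^ (n + 3) = xx ρ * (A * (-ρ) ^ (n + 2) + A * (-ρ) ^ (n + 1)
      + A * (-ρ) ^ n) := by
    unfold xx
    field_simp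
    unfold EE
    ring
  rw [hpow]
  ring

lemma rec3_eq_cf (ρ A B C a b c : ℝ) (h0 : cf ρ A B C 0 = a) (h1 : cf ρ A B C 1 = b)
    (h2 : cf ρ A B C 2 = c) (n : ℕ) : rec3 (xx ρ) a b c n = cf ρ A B C n := by
  induction n using Nat.strong_induction_on with
  | _ n ih =>
    rcases n with _ | _ | _ | n
    · simp only [rec3]; exact h0.symm
    · simp only [rec3]; exact h1.symm
    · simp only [rec3]; exact h2.symm
    · rw [rec3, cf_rec, ih (n + 2) (by omega), ih (n + 1) (by omega), ih n (by omega)]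

lemma rr_sq_cos_two (ρ B C : ℝ) :
    rr ρ ^ 2 * (B * cos ((2 : ℕ) * th ρ) + C * sin ((2 : ℕ) * th ρ))
    = (ρ * (1 - ρ) / EE ρ) *
        (rr ρ * (B * cos (th ρ) + C * sin (th ρ))) - (ρ ^ 2 / EE ρ) * B := by
  have := trig_rec ρ B C 0
  simpa using this

/-- The cycle: `D(C_n, x(ρ)) = (-ρ)^n + 2 r^n cos nθ`. -/
lemma cycle_closed (ρ : ℝ) (n : ℕ) :
    rec3 (xx ρ) 3 (xx ρ) (xx ρ ^ 2 + 2 * xx ρ) n = cf ρ 1 2 0 n := by
  have hE := EE_pos ρ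
  refine rec3_eq_cf ρ 1 2 0 _ _ _ ?_ ?_ ?_ n
  · unfold cf; simp; norm_num
  · unfold cf
    have := two_rr_cos ρ
    simp only [pow_one, one_mul, Nat.cast_one, zero_mul, add_zero]
    rw [show rr ρ * (2 * cos (th ρ)) = 2 * rr ρ * cos (th ρ) by ring, this]
    unfold xx
    field_simp
    unfold EE
    ring
  · unfold cf
    rw [rr_sq_cos_two]
    have := two_rr_cos ρ
    simp only [one_mul, zero_mul, add_zero]
    rw [show rr ρ * (2 * cos (th ρ)) = 2 * rr ρ * cos (th ρ) by ring, this]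
    unfold xx
    field_simp
    unfold EE
    ring

/-- `ρ² - 2ρ + 3`. -/
noncomputable def MM (ρ : ℝ) : ℝ := ρ ^ 2 - 2 * ρ + 3

lemma MM_pos (ρ : ℝ) : 0 < MM ρ := by unfold MM; nlinarith [sq_nonneg (ρ - 1)]

/-- The path. -/
lemma path_closed (ρ : ℝ) (n : ℕ) :
    rec3 (xx ρ) 1 (xx ρ) (xx ρ ^ 2 + 2 * xx ρ) n
      = cf ρ ((ρ - 1) ^ 2 / MM ρ) (2 / MM ρ)
        (-2 * ρ * (ρ ^ 2 - ρ + 2) / (MM ρ * √(DD ρ))) n := by
  have hE := EE_pos ρ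
  have hM := MM_pos ρ
  have hD := sqD_pos ρ
  have hmain : rr ρ * ((2 / MM ρ) * cos (th ρ)
      + (-2 * ρ * (ρ ^ 2 - ρ + 2) / (MM ρ * √(DD ρ))) * sin (th ρ))
      = (ρ * (1 - ρ) - ρ ^ 2 * (ρ ^ 2 - ρ + 2)) / (EE ρ * MM ρ) := by
    have h1 := two_rr_cos ρ
    have h2 := two_rr_sin ρ
    have h3 : rr ρ * ((2 / MM ρ) * cos (th ρ)
      + (-2 * ρ * (ρ ^ 2 - ρ + 2) / (MM ρ * √(DD ρ))) * sin (th ρ))
      = (1 / MM ρ) * (2 * rr ρ * cos (th ρ))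
        + (-ρ * (ρ ^ 2 - ρ + 2) / (MM ρ * √(DD ρ))) * (2 * rr ρ * sin (th ρ)) := by
      ring
    rw [h3, h1, h2]
    field_simp
    ring
  refine rec3_eq_cf ρ _ _ _ _ _ _ ?_ ?_ ?_ n
  · unfold cf
    simp only [pow_zero, mul_one, Nat.cast_zero, zero_mul, cos_zero, sin_zero, mul_zero, add_zero,
      one_mul]
    field_simp
    unfold MM
    ring
  · unfold cf
    simp only [pow_one, Nat.cast_one, one_mul]
    rw [hmain]
    unfold xx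
    field_simp
    unfold EE MM
    ring
  · unfold cf
    rw [rr_sq_cos_two, hmain]
    unfold xx
    field_simp
    unfold EE MM
    ring

end Pool.Agent.Lib.MP_130e73_co
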