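import Mathlib
import Pool.Agent.Lib.MP_130e73_co.Analysis

set_option autoImplicit false

namespace Pool.Agent.Lib.MP_130e73_co

open Real Set Filter Topology

lemma th_lt (a b : ℝ) (ha : 0 < a) (hab : a < b) (hb : b < 1) : th a < th b := by
  unfold th
  have ha' := sqE_pos a
  have hb' := sqE_pos b
  have hcosa := cos_th a
  have hcosb := cos_th b
  apply Real.arccos_lt_arccos
  · rw [← hcosb]; exact Real.neg_one_le_cos _
  · rw [div_lt_div_iff₀ (by positivity) (by positivity)]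
    apply lt_of_pow_lt_pow_left₀ 2
    · have : 0 < 1 - a := by linarith
      positivity
    · have e1 : ((1 - b) * (2 * √(EE a))) ^ 2 = 4 * (1 - b) ^ 2 * EE a := by
        linear_combination 4 * (1 - b) ^ 2 * (sqE_sq a)
      have e2 : ((1 - a) * (2 * √(EE b))) ^ 2 = 4 * (1 - a) ^ 2 * EE b := by
        linear_combination 4 * (1 - a) ^ 2 * (sqE_sq b)
      rw [e1, e2]
      unfold EE
      have h1 : 0 < b - a := by linarith
      have h2 : 0 < 1 - a * b := by nlinarith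
      have : 4 * (1 - a) ^ 2 * (b ^ 2 - b + 1) - 4 * (1 - b) ^ 2 * (a ^ 2 - a + 1)
          = 4 * ((b - a) * (1 - a * b)) := by ring
      nlinarith [mul_pos h1 h2]
  · rw [← hcosa]; exact Real.cos_le_one _

/-- At a point where `n θ = k π`, the sign of the closed form is `(-1)^k`. -/
lemma cf_sign (ρ A B C : ℝ) (h0 : 0 < ρ) (h1 : ρ < 1) (hA : 0 ≤ A) (hAB : A < B) (n : ℕ) (k : ℤ)
    (hk : n * th ρ = k * π) :
    0 < (-1 : ℝ) ^ k * cf ρ A B C n := by
  have hE1 : EE ρ < 1 := by unfold EE; nlinarith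
  have hs := sqE_pos ρ
  have hs1 : √(EE ρ) < 1 := by
    rw [Real.sqrt_lt' one_pos]; simpa using hE1
  have hr : ρ < rr ρ := by
    unfold rr
    rw [lt_div_iff₀ hs]
    nlinarith
  have hrn : ρ ^ n ≤ rr ρ ^ n := pow_le_pow_left₀ h0.le hr.le n
  have hrp : 0 < rr ρ ^ n := pow_pos (h0.trans hr) n
  unfold cf
  rw [hk, Real.sin_int_mul_pi, Real.cos_int_mul_pi, mul_zero, add_zero]
  have hkk : (-1 : ℝ) ^ k * (-1 : ℝ) ^ k = 1 := by
    rw [← mul_zpow]; norm_num
  have hval : (-1 : ℝ) ^ k * (A * (-ρ) ^ n + rr ρ ^ n * (B * (-1) ^ k))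
      = B * rr ρ ^ n + (-1 : ℝ) ^ k * (A * (-ρ) ^ n) := by
    linear_combination (B * rr ρ ^ n) * hkk
  rw [hval]
  have habs : |(-1 : ℝ) ^ k * (A * (-ρ) ^ n)| ≤ A * ρ ^ n := by
    rw [abs_mul, abs_mul, abs_pow, abs_neg, abs_of_pos h0, abs_of_nonneg hA, abs_zpow, abs_neg,
      abs_one, one_zpow, one_mul]
  have h2 : A * ρ ^ n < B * rr ρ ^ n := by
    have : 0 < ρ ^ n := pow_pos h0 n
    calc A * ρ ^ n ≤ A * rr ρ ^ n := by gcongr
      _ < B * rr ρ ^ n := by gcongr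
  have := (abs_le.mp habs).1
  linarith

/-- Existence of roots in every parameter interval inside `(0,1)`. -/
lemma exists_root (u : ℕ → ℝ → ℝ) (A B C : ℝ → ℝ) (hu : ∀ n, Continuous (u n))
    (hcf : ∀ n, 4 ≤ n → ∀ ρ, u n (xx ρ) = cf ρ (A ρ) (B ρ) (C ρ) n)
    (hA : ∀ ρ, 0 < ρ → ρ < 1 → 0 ≤ A ρ) (hAB : ∀ ρ, 0 < ρ → ρ < 1 → A ρ < B ρ)
    (a b : ℝ) (ha : 0 < a) (hab : a < b) (hb : b < 1) :
    ∃ n, 4 ≤ n ∧ ∃ ρ ∈ Icc a b, u n (xx ρ) = 0 := by
  have hth := th_lt a b ha hab hb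
  obtain ⟨n0, hn0⟩ := exists_nat_gt (2 * π / (th b - th a))
  set n := max n0 4 with hn
  have hn4 : 4 ≤ n := le_max_right _ _
  have hnn : 2 * π < n * (th b - th a) := by
    rw [div_lt_iff₀ (by linarith)] at hn0
    have : (n0 : ℝ) ≤ n := by exact_mod_cast le_max_left _ _
    nlinarith
  refine ⟨n, hn4, ?_⟩
  set k : ℤ := ⌈n * th a / π⌉ with hk
  have hpi := Real.pi_pos
  have hk1 : n * th a ≤ k * π := by
    have := Int.le_ceil (n * th a / π)
    rwa [div_le_iff₀ hpi] at this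
  have hk2 : k * π < n * th a + π := by
    have := Int.ceil_lt_add_one (n * th a / π)
    rw [← hk] at this
    have h' : (k : ℝ) * π < (n * th a / π + 1) * π := by
      exact mul_lt_mul_of_pos_right this hpi
    have h'' : (n * th a / π + 1) * π = n * th a + π := by field_simp
    linarith
  have hcont : ContinuousOn (fun ρ => n * th ρ) (Icc a b) :=
    (continuous_const.mul continuous_th).continuousOn
  have hivt := intermediate_value_Icc hab.le hcont
  have m1 : (k : ℝ) * π ∈ Icc (n * th a) (n * th b) := ⟨hk1, by nlinarith⟩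
  have m2 : ((k + 1 : ℤ) : ℝ) * π ∈ Icc (n * th a) (n * th b) := by
    push_cast
    constructor
    · nlinarith
    · nlinarith
  obtain ⟨a1, ha1, hk3⟩ := hivt m1
  obtain ⟨a2, ha2, hk4⟩ := hivt m2
  simp only at hk3 hk4
  have s1 := cf_sign a1 (A a1) (B a1) (C a1) (lt_of_lt_of_le ha ha1.1) (lt_of_le_of_lt ha1.2 hb)
    (hA _ (lt_of_lt_of_le ha ha1.1) (lt_of_le_of_lt ha1.2 hb))
    (hAB _ (lt_of_lt_of_le ha ha1.1) (lt_of_le_of_lt ha1.2 hb)) n k hk3
  have s2 := cf_sign a2 (A a2) (B a2) (C a2) (lt_of_lt_of_le ha ha2.1) (lt_of_le_of_lt ha2.2 hb)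
    (hA _ (lt_of_lt_of_le ha ha2.1) (lt_of_le_of_lt ha2.2 hb))
    (hAB _ (lt_of_lt_of_le ha ha2.1) (lt_of_le_of_lt ha2.2 hb)) n (k + 1) hk4
  rw [← hcf n hn4] at s1 s2
  set g : ℝ → ℝ := fun ρ => (-1 : ℝ) ^ k * u n (xx ρ) with hg
  have hgc : Continuous g := continuous_const.mul ((hu n).comp continuous_xx)
  have g1 : 0 < g a1 := s1
  have g2 : g a2 < 0 := by
    rw [zpow_add₀ (by norm_num : (-1 : ℝ) ≠ 0), zpow_one] at s2
    simp only [hg]
    linarith
  have h0mem : (0 : ℝ) ∈ uIcc (g a1) (g a2) := by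
    rw [Set.mem_uIcc]; right; exact ⟨g2.le, g1.le⟩
  obtain ⟨c, hc, hc0⟩ := intermediate_value_uIcc (hgc.continuousOn (s := uIcc a1 a2)) h0mem
  refine ⟨c, ?_, ?_⟩
  · have hsub : uIcc a1 a2 ⊆ Icc a b := Set.uIcc_subset_Icc ha1 ha2
    exact hsub hc
  · simp only [hg] at hc0
    rcases mul_eq_zero.mp hc0 with h | h
    · exact absurd h (zpow_ne_zero _ (by norm_num))
    · exact h

lemma xx_zero : xx 0 = 0 := by simp [xx]
lemma xx_one : xx 1 = -1 := by norm_num [xx, EE]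

/-- Every point of `[-1,0]` is an accumulation point of the root set. -/
lemma accPt_of_mem (u : ℕ → ℝ → ℝ) (A B C : ℝ → ℝ) (hu : ∀ n, Continuous (u n))
    (hcf : ∀ n, 4 ≤ n → ∀ ρ, u n (xx ρ) = cf ρ (A ρ) (B ρ) (C ρ) n)
    (hA : ∀ ρ, 0 < ρ → ρ < 1 → 0 ≤ A ρ) (hAB : ∀ ρ, 0 < ρ → ρ < 1 → A ρ < B ρ)
    (x : ℝ) (hx : x ∈ Icc (-1 : ℝ) 0) :
    AccPt x (𝓟 {r | ∃ n, 4 ≤ n ∧ u n r = 0}) := by
  rw [accPt_iff_nhds]
  intro V hV
  obtain ⟨ε, hε, hball⟩ := Metric.mem_nhds_iff.mp hV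
  -- an open interval of values inside `(-1,0)`, near `x` and avoiding `x`
  obtain ⟨c, d, hcd, hc, hd, hsub⟩ : ∃ c d : ℝ, c < d ∧ -1 < c ∧ d < 0 ∧
      ∀ y ∈ Icc c d, |y - x| < ε ∧ y ≠ x := by
    rcases lt_or_ge x (-1 / 2) with h | h
    · refine ⟨x + min (ε / 3) (1 / 8), x + min (ε / 2) (1 / 4), ?_, ?_, ?_, ?_⟩
      · rcases le_total (ε / 2) (1 / 4) with h' | h'
        · rw [min_eq_left h']
          have : min (ε / 3) (1 / 8) ≤ ε / 3 := min_le_left _ _
          linarith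
        · rw [min_eq_right h']
          have : min (ε / 3) (1 / 8) ≤ 1 / 8 := min_le_right _ _
          linarith
      · have : 0 < min (ε / 3) (1 / 8) := lt_min (by linarith) (by norm_num)
        linarith [hx.1]
      · have : min (ε / 2) (1 / 4) ≤ 1 / 4 := min_le_right _ _
        linarith
      · intro y hy
        have h1 : 0 < min (ε / 3) (1 / 8) := lt_min (by linarith) (by norm_num)
        have h2 : min (ε / 2) (1 / 4) ≤ ε / 2 := min_le_left _ _
        have h3 : x < y := by linarith [hy.1]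
        refine ⟨?_, h3.ne'⟩
        rw [abs_lt]
        constructor <;> linarith [hy.2]
    · refine ⟨x - min (ε / 2) (1 / 4), x - min (ε / 3) (1 / 8), ?_, ?_, ?_, ?_⟩
      · rcases le_total (ε / 2) (1 / 4) with h' | h'
        · rw [min_eq_left h']
          have : min (ε / 3) (1 / 8) ≤ ε / 3 := min_le_left _ _
          linarith
        · rw [min_eq_right h']
          have : min (ε / 3) (1 / 8) ≤ 1 / 8 := min_le_right _ _
          linarith
      · have : min (ε / 2) (1 / 4) ≤ 1 / 4 := min_le_right _ _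
        linarith
      · have : 0 < min (ε / 3) (1 / 8) := lt_min (by linarith) (by norm_num)
        linarith [hx.2]
      · intro y hy
        have h1 : 0 < min (ε / 3) (1 / 8) := lt_min (by linarith) (by norm_num)
        have h2 : min (ε / 2) (1 / 4) ≤ ε / 2 := min_le_left _ _
        have h3 : y < x := by linarith [hy.2]
        refine ⟨?_, h3.ne⟩
        rw [abs_lt]
        constructor <;> linarith [hy.1]
  -- pull back to an interval of parameters
  have hcont : ContinuousOn xx (Icc 0 1) := continuous_xx.continuousOn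
  have hivt := intermediate_value_Icc' (zero_le_one (α := ℝ)) hcont
  rw [xx_zero, xx_one] at hivt
  obtain ⟨α, hα, hαm⟩ := hivt (show (c + d) / 2 ∈ Icc (-1 : ℝ) 0 from ⟨by linarith, by linarith⟩)
  have hα0 : 0 < α := by
    rcases hα.1.lt_or_eq with h | h
    · exact h
    · rw [← h, xx_zero] at hαm; linarith
  have hα1 : α < 1 := by
    rcases hα.2.lt_or_eq with h | h
    · exact h
    · rw [h, xx_one] at hαm; linarith
  have hopen : xx ⁻¹' (Ioo c d) ∈ 𝓝 α := by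
    apply continuous_xx.continuousAt.preimage_mem_nhds
    rw [hαm]
    exact Ioo_mem_nhds (by linarith) (by linarith)
  have hopen2 : Ioo (0 : ℝ) 1 ∈ 𝓝 α := Ioo_mem_nhds hα0 hα1
  obtain ⟨δ, hδ, hδsub⟩ := Metric.mem_nhds_iff.mp (Filter.inter_mem hopen hopen2)
  have hin : ∀ y, |y - α| < δ → xx y ∈ Ioo c d ∧ y ∈ Ioo (0 : ℝ) 1 := fun y hy =>
    hδsub (by rw [Metric.mem_ball, Real.dist_eq]; exact hy)
  have hl := hin α (by simpa using hδ)
  have hr := hin (α + δ / 2) (by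
    rw [show α + δ / 2 - α = δ / 2 by ring, abs_of_pos (by linarith)]; linarith)
  obtain ⟨n, hn, ρ, hρ, hroot⟩ := exists_root u A B C hu hcf hA hAB α (α + δ / 2) hα0
    (by linarith) hr.2.2
  have hρin := hin ρ (by
    rw [abs_lt]; constructor <;> linarith [hρ.1, hρ.2])
  refine ⟨xx ρ, ⟨hball ?_, ⟨n, hn, hroot⟩⟩, ?_⟩
  · rw [Metric.mem_ball, Real.dist_eq]
    exact (hsub _ ⟨hρin.1.1.le, hρin.1.2.le⟩).1
  · exact (hsub _ ⟨hρin.1.1.le, hρin.1.2.le⟩).2

end Pool.Agent.Lib.MP_130e73_co
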