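import Mathlib
import Pool.Agent.Lib.MP_130e73_co.Dense

set_option autoImplicit false

namespace Pool.Agent.Lib.MP_130e73_co

open Real Set Filter Topology Polynomial

/-- For parameters in a compact subinterval of `(1, ∞)` the closed form is nonzero for large `n`. -/
lemma cf_ne_zero (A B C : ℝ → ℝ) (a b K : ℝ) (ha : 1 < a)
    (hK : ∀ ρ ∈ Icc a b, 0 < A ρ ∧ |B ρ| + |C ρ| ≤ K * A ρ) :
    ∃ N : ℕ, ∀ n, N ≤ n → ∀ ρ ∈ Icc a b, cf ρ (A ρ) (B ρ) (C ρ) n ≠ 0 := by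
  have hE : 1 < √(EE a) := by
    rw [Real.lt_sqrt (by norm_num)]
    unfold EE
    nlinarith
  obtain ⟨N, hN⟩ := pow_unbounded_of_one_lt K hE
  refine ⟨N, fun n hn ρ hρ h0 => ?_⟩
  obtain ⟨hA, hBC⟩ := hK ρ hρ
  have hρ1 : 1 < ρ := lt_of_lt_of_le ha hρ.1
  have hs := sqE_pos ρ
  have hEle : √(EE a) ≤ √(EE ρ) := by
    apply Real.sqrt_le_sqrt
    unfold EE
    nlinarith [hρ.1]
  have h1 : √(EE a) ^ N ≤ √(EE a) ^ n := pow_le_pow_right₀ hE.le hn
  have h2 : √(EE a) ^ n ≤ √(EE ρ) ^ n := pow_le_pow_left₀ (by positivity) hEle n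
  have h3 : K < √(EE ρ) ^ n := lt_of_lt_of_le hN (h1.trans h2)
  -- bound the oscillating part
  have hr0 : 0 ≤ rr ρ ^ n := by
    unfold rr
    have : 0 < ρ := by linarith
    positivity
  unfold cf at h0
  have h4 : A ρ * (-ρ) ^ n = -(rr ρ ^ n * (B ρ * cos (n * th ρ) + C ρ * sin (n * th ρ))) := by
    linarith
  have h5 : A ρ * ρ ^ n ≤ rr ρ ^ n * (|B ρ| + |C ρ|) := by
    have habs : |A ρ * (-ρ) ^ n| = A ρ * ρ ^ n := by
      rw [abs_mul, abs_pow, abs_neg, abs_of_pos hA, abs_of_pos (by linarith : 0 < ρ)]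
    rw [← habs, h4, abs_neg, abs_mul, abs_of_nonneg hr0]
    apply mul_le_mul_of_nonneg_left _ hr0
    refine (abs_add_le _ _).trans ?_
    rw [abs_mul, abs_mul]
    have hc := Real.abs_cos_le_one (n * th ρ)
    have hsn := Real.abs_sin_le_one (n * th ρ)
    have := mul_le_mul_of_nonneg_left hc (abs_nonneg (B ρ))
    have := mul_le_mul_of_nonneg_left hsn (abs_nonneg (C ρ))
    linarith
  have h6 : A ρ * ρ ^ n ≤ rr ρ ^ n * (K * A ρ) :=
    h5.trans (mul_le_mul_of_nonneg_left hBC hr0)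
  have h7 : rr ρ ^ n * √(EE ρ) ^ n = ρ ^ n := by
    rw [← mul_pow]; unfold rr; rw [div_mul_cancel₀ _ hs.ne']
  rw [← h7] at h6
  have hrp : 0 < rr ρ ^ n := by
    unfold rr
    have : 0 < ρ := by linarith
    positivity
  have h8 : rr ρ ^ n * (K * A ρ) < A ρ * (rr ρ ^ n * √(EE ρ) ^ n) := by
    have : 0 < rr ρ ^ n * A ρ := mul_pos hrp hA
    nlinarith
  linarith

/-- Every `x < -1` is `xx ρ` for some `ρ` with explicit bounds. -/
lemma exists_param (x : ℝ) (hx : x < -1) :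
    ∃ ρ, xx ρ = x ∧ 1 + (-x - 1) / 2 ≤ ρ ∧ ρ ≤ -x := by
  have hle : xx (-x) ≤ x := by
    unfold xx
    rw [div_le_iff₀ (EE_pos _)]
    unfold EE
    nlinarith [mul_pos (show 0 < -x by linarith) (show 0 < -x - 1 by linarith)]
  have hivt := intermediate_value_Icc' (show (1 : ℝ) ≤ -x by linarith)
    (continuous_xx.continuousOn (s := Icc 1 (-x)))
  rw [xx_one] at hivt
  obtain ⟨ρ, hρ, hρx⟩ := hivt ⟨hle, hx.le⟩
  refine ⟨ρ, hρx, ?_, hρ.2⟩
  have hE := EE_pos ρ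
  have h1 : ρ ^ 3 = -x * EE ρ := by
    rw [← hρx]; unfold xx; field_simp
  unfold EE at h1 hE
  have h2 : (-x - 1) * (ρ ^ 2 - ρ + 1) = (ρ - 1) * (ρ ^ 2 + 1) := by
    linear_combination -h1
  have h3 : (ρ - 1) * (ρ ^ 2 + 1) ≤ (ρ - 1) * (2 * (ρ ^ 2 - ρ + 1)) := by
    apply mul_le_mul_of_nonneg_left _ (by linarith [hρ.1])
    nlinarith [sq_nonneg (ρ - 1)]
  have h4 : (-x - 1) * (ρ ^ 2 - ρ + 1) ≤ (2 * (ρ - 1)) * (ρ ^ 2 - ρ + 1) := by
    rw [h2]; linarith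
  have h5 := le_of_mul_le_mul_right h4 hE
  linarith

/-- The set of real roots of the members with index at least `4`. -/
def rootSetOf (P : ℕ → ℝ[X]) : Set ℝ := {r | ∃ n, 4 ≤ n ∧ (P n).eval r = 0}

lemma finite_roots_below (P : ℕ → ℝ[X]) (hP : ∀ n, 4 ≤ n → P n ≠ 0) (N : ℕ) :
    {r : ℝ | ∃ n, 4 ≤ n ∧ n < N ∧ (P n).eval r = 0}.Finite := by
  have : {r : ℝ | ∃ n, 4 ≤ n ∧ n < N ∧ (P n).eval r = 0}
      ⊆ ⋃ n ∈ {n : ℕ | 4 ≤ n ∧ n < N}, {r : ℝ | (P n).IsRoot r} := by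
    rintro r ⟨n, h1, h2, h3⟩
    simp only [mem_iUnion]
    exact ⟨n, ⟨h1, h2⟩, h3⟩
  refine Set.Finite.subset ?_ this
  refine Set.Finite.biUnion ?_ ?_
  · exact (Set.finite_lt_nat N).subset (fun n hn => hn.2)
  · intro n hn
    exact Polynomial.finite_setOfPred_isRoot (hP n hn.1)

lemma derived_eq (P : ℕ → ℝ[X]) (A B C : ℝ → ℝ)
    (hpos : ∀ n, 4 ≤ n → ∀ x : ℝ, 0 < x → 0 < (P n).eval x)
    (hcf : ∀ n, 4 ≤ n → ∀ ρ, (P n).eval (xx ρ) = cf ρ (A ρ) (B ρ) (C ρ) n)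
    (hA : ∀ ρ, 0 < ρ → ρ < 1 → 0 ≤ A ρ) (hAB : ∀ ρ, 0 < ρ → ρ < 1 → A ρ < B ρ)
    (hK : ∀ a b : ℝ, 1 < a → ∃ K, ∀ ρ ∈ Icc a b, 0 < A ρ ∧ |B ρ| + |C ρ| ≤ K * A ρ) :
    derivedSet (rootSetOf P) = Icc (-1 : ℝ) 0 := by
  have hP : ∀ n, 4 ≤ n → P n ≠ 0 := by
    intro n hn h0
    have := hpos n hn 1 one_pos
    rw [h0] at this
    simp at this
  ext x
  rw [mem_derivedSet]
  constructor
  · intro hacc
    rw [accPt_iff_nhds] at hacc
    by_contra hx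
    rw [mem_Icc, not_and_or, not_le, not_le] at hx
    rcases hx with hx | hx
    · -- `x < -1`
      obtain ⟨K, hKK⟩ := hK (1 + ((1 - x) / 2 - 1) / 2) (1 - x) (by linarith)
      obtain ⟨N, hN⟩ := cf_ne_zero A B C _ _ K (by linarith) hKK
      have hfin := finite_roots_below P hP N
      set F := {r : ℝ | ∃ n, 4 ≤ n ∧ n < N ∧ (P n).eval r = 0} with hF
      have hfin' : (F \ {x}).Finite := hfin.subset Set.sdiff_subset
      have hU1 : Ioo (x - 1) ((x - 1) / 2) ∈ 𝓝 x := Ioo_mem_nhds (by linarith) (by linarith)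
      have hU2 : (F \ {x})ᶜ ∈ 𝓝 x := by
        apply hfin'.isClosed.isOpen_compl.mem_nhds
        simp
      obtain ⟨y, ⟨⟨hyV, hyF⟩, ⟨n, hn4, hn⟩⟩, hyx⟩ := hacc _ (Filter.inter_mem hU1 hU2)
      have hy1 : y < -1 := by linarith [hyV.2]
      obtain ⟨ρ, hρ, hρ1, hρ2⟩ := exists_param y hy1
      have hρI : ρ ∈ Icc (1 + ((1 - x) / 2 - 1) / 2) (1 - x) := by
        constructor
        · linarith [hyV.2]
        · linarith [hyV.1]
      rcases Nat.lt_or_ge n N with hlt | hge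
      · exact hyF ⟨⟨n, hn4, hlt, hn⟩, hyx⟩
      · apply hN n hge ρ hρI
        rw [← hcf n hn4, hρ]
        exact hn
    · -- `0 < x`
      obtain ⟨y, ⟨hyV, ⟨n, hn4, hn⟩⟩, _⟩ := hacc (Ioi 0) (Ioi_mem_nhds hx)
      have := hpos n hn4 y hyV
      rw [hn] at this
      exact lt_irrefl _ this
  · intro hx
    exact accPt_of_mem (fun n y => (P n).eval y) A B C (fun n => (P n).continuous) hcf hA hAB x hx

lemma rec3_pos (x a b c : ℝ) (hx : 0 < x) (ha : 0 < a) (hb : 0 < b) (hc : 0 < c) (n : ℕ) :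
    0 < rec3 x a b c n := by
  induction n using Nat.strong_induction_on with
  | _ n ih =>
    rcases n with _ | _ | _ | n
    · simpa only [rec3] using ha
    · simpa only [rec3] using hb
    · simpa only [rec3] using hc
    · rw [rec3]
      have h1 := ih (n + 2) (by omega)
      have h2 := ih (n + 1) (by omega)
      have h3 := ih n (by omega)
      positivity

lemma derived_RC : derivedSet RC = Icc (-1 : ℝ) 0 := by
  have hRC : RC = rootSetOf (fun n => domPoly (SimpleGraph.cycleGraph n)) := rfl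
  rw [hRC]
  refine derived_eq _ (fun _ => 1) (fun _ => 2) (fun _ => 0) ?_ ?_ ?_ ?_ ?_
  · intro n hn x hx
    rw [eval_cycle x n (by omega)]
    exact rec3_pos x _ _ _ hx (by norm_num) hx (by positivity) n
  · intro n hn ρ
    rw [eval_cycle _ n (by omega), cycle_closed]
  · intro ρ _ _; norm_num
  · intro ρ _ _; norm_num
  · intro a b _
    exact ⟨2, fun ρ _ => by norm_num⟩

lemma derived_RP : derivedSet RP = Icc (-1 : ℝ) 0 := by
  have hRP : RP = rootSetOf (fun n => domPoly (SimpleGraph.pathGraph n)) := rfl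
  rw [hRP]
  refine derived_eq _ (fun ρ => (ρ - 1) ^ 2 / MM ρ) (fun ρ => 2 / MM ρ)
    (fun ρ => -2 * ρ * (ρ ^ 2 - ρ + 2) / (MM ρ * √(DD ρ))) ?_ ?_ ?_ ?_ ?_
  · intro n hn x hx
    rw [eval_path x n (by omega)]
    exact rec3_pos x _ _ _ hx (by norm_num) hx (by positivity) n
  · intro n hn ρ
    rw [eval_path _ n (by omega), path_closed]
  · intro ρ _ _
    have := MM_pos ρ
    positivity
  · intro ρ h0 h1
    have := MM_pos ρ
    gcongr
    nlinarith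
  · intro a b ha
    refine ⟨(2 + 2 * b * (b ^ 2 + 2)) / (a - 1) ^ 2, fun ρ hρ => ?_⟩
    have hM := MM_pos ρ
    have hD := sqD_pos ρ
    have ha1 : 0 < a - 1 := by linarith
    have hρ1 : 1 < ρ := lt_of_lt_of_le ha hρ.1
    have hb1 : 1 < b := lt_of_lt_of_le hρ1 hρ.2
    have hρa : 0 < ρ - 1 := by linarith
    refine ⟨by positivity, ?_⟩
    have hD1 : 1 ≤ √(DD ρ) := by
      rw [Real.one_le_sqrt]
      unfold DD
      nlinarith
    have hB : |2 / MM ρ| = 2 / MM ρ := abs_of_pos (by positivity)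
    have hq : 0 < ρ ^ 2 - ρ + 2 := by nlinarith
    have hC : |-2 * ρ * (ρ ^ 2 - ρ + 2) / (MM ρ * √(DD ρ))|
        = 2 * ρ * (ρ ^ 2 - ρ + 2) / (MM ρ * √(DD ρ)) := by
      rw [show -2 * ρ * (ρ ^ 2 - ρ + 2) / (MM ρ * √(DD ρ))
        = -(2 * ρ * (ρ ^ 2 - ρ + 2) / (MM ρ * √(DD ρ))) by ring, abs_neg, abs_of_pos]
      have : 0 < ρ := by linarith
      positivity
    rw [hB, hC]
    have hρ0 : 0 < ρ := by linarith
    have h1 : 2 * ρ * (ρ ^ 2 - ρ + 2) / (MM ρ * √(DD ρ)) ≤ 2 * ρ * (ρ ^ 2 - ρ + 2) / MM ρ := by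
      apply div_le_div_of_nonneg_left (by positivity) hM
      nlinarith
    have h2 : 2 * ρ * (ρ ^ 2 - ρ + 2) ≤ 2 * b * (b ^ 2 + 2) := by
      have : ρ ^ 2 - ρ + 2 ≤ b ^ 2 + 2 := by nlinarith [hρ.2]
      have h3 : 2 * ρ ≤ 2 * b := by linarith [hρ.2]
      exact mul_le_mul h3 this hq.le (by linarith)
    have h3 : 2 / MM ρ + 2 * ρ * (ρ ^ 2 - ρ + 2) / (MM ρ * √(DD ρ))
        ≤ (2 + 2 * b * (b ^ 2 + 2)) / MM ρ := by
      calc 2 / MM ρ + 2 * ρ * (ρ ^ 2 - ρ + 2) / (MM ρ * √(DD ρ))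
          ≤ 2 / MM ρ + 2 * ρ * (ρ ^ 2 - ρ + 2) / MM ρ := by linarith
        _ = (2 + 2 * ρ * (ρ ^ 2 - ρ + 2)) / MM ρ := by rw [add_div]
        _ ≤ (2 + 2 * b * (b ^ 2 + 2)) / MM ρ := by gcongr
    refine h3.trans ?_
    have h4 : (2 + 2 * b * (b ^ 2 + 2)) / (a - 1) ^ 2 * ((ρ - 1) ^ 2 / MM ρ)
        = ((2 + 2 * b * (b ^ 2 + 2)) / MM ρ) * ((ρ - 1) ^ 2 / (a - 1) ^ 2) := by
      field_simp
    rw [h4]
    have h5 : 1 ≤ (ρ - 1) ^ 2 / (a - 1) ^ 2 := by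
      rw [one_le_div (by positivity)]
      have := hρ.1
      gcongr
    have h6 : 0 < (2 + 2 * b * (b ^ 2 + 2)) / MM ρ := by
      have : 0 < b := by linarith
      positivity
    nlinarith

/-- A set whose derived set misses `-3/2` has a gap interval inside `[-2,0]`. -/
lemma gap_of_derived (R : Set ℝ) (h : derivedSet R = Icc (-1 : ℝ) 0) :
    ∃ a b : ℝ, -2 ≤ a ∧ a < b ∧ b ≤ 0 ∧ ∀ r ∈ Icc a b, r ∉ R := by
  have hn : (-3 / 2 : ℝ) ∉ derivedSet R := by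
    rw [h]; rintro ⟨h1, _⟩; norm_num at h1
  rw [mem_derivedSet, accPt_iff_nhds] at hn
  push Not at hn
  obtain ⟨V, hV, hVR⟩ := hn
  obtain ⟨ε, hε, hball⟩ := Metric.mem_nhds_iff.mp hV
  refine ⟨-3 / 2 + min (ε / 3) (1 / 8), -3 / 2 + min (ε / 2) (1 / 4), ?_, ?_, ?_, ?_⟩
  · have : 0 < min (ε / 3) (1 / 8) := lt_min (by linarith) (by norm_num)
    linarith
  · rcases le_total (ε / 2) (1 / 4) with h' | h'
    · rw [min_eq_left h']
      have : min (ε / 3) (1 / 8) ≤ ε / 3 := min_le_left _ _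
      linarith
    · rw [min_eq_right h']
      have : min (ε / 3) (1 / 8) ≤ 1 / 8 := min_le_right _ _
      linarith
  · have : min (ε / 2) (1 / 4) ≤ 1 / 4 := min_le_right _ _
    linarith
  · intro r hr hrR
    have h1 : 0 < min (ε / 3) (1 / 8) := lt_min (by linarith) (by norm_num)
    have h2 : min (ε / 2) (1 / 4) ≤ ε / 2 := min_le_left _ _
    have h3 : r ∈ V := by
      apply hball
      rw [Metric.mem_ball, Real.dist_eq, abs_lt]
      constructor <;> linarith [hr.1, hr.2]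
    have := hVR r ⟨h3, hrR⟩
    linarith [hr.1]

end Pool.Agent.Lib.MP_130e73_co
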